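import Pool.Agent.Helper71.PR.Goals

/-!
# Packet PR-CJ: conjugation by large diagonal matrices contracts unit triangular matrices
-/

set_option autoImplicit false

namespace Pool.Agent.Helper15.PR

open Matrix Filter Topology Pool.Agent.Helper71.PR

theorem tendsto_mt {n : ℕ} {f : ℕ → Mt n} {A : Mt n} :
    Tendsto f atTop (𝓝 A) ↔ ∀ i j, Tendsto (fun m => f m i j) atTop (𝓝 (A i j)) := by
  constructor
  · intro h i j
    exact tendsto_pi_nhds.mp (tendsto_pi_nhds.mp h i) j
  · intro h
    exact tendsto_pi_nhds.mpr fun i => tendsto_pi_nhds.mpr fun j => h i j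

theorem cj : G_CJ := by
  intro n a ha
  obtain ⟨h0, hg⟩ := ha
  constructor
  · intro L L0 hL hLim
    rw [tendsto_mt] at hLim ⊢
    intro i j
    simp only [Matrix.mul_diagonal, Matrix.diagonal_mul]
    rcases lt_trichotomy i j with h | h | h
    · rw [Matrix.one_apply_ne h.ne]
      refine (tendsto_const_nhds (x := (0 : ℝ))).congr fun m => ?_
      rw [(hL m).2 i j h]
      ring
    · subst h
      rw [Matrix.one_apply_eq]
      refine (tendsto_const_nhds (x := (1 : ℝ))).congr' ?_
      filter_upwards [h0] with m hm
      rw [(hL m).1 i, mul_one, mul_inv_cancel₀ (hm i)]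
    · rw [Matrix.one_apply_ne h.ne']
      have h1 := (hg j i h).mul (hLim i j)
      rw [zero_mul] at h1
      refine h1.congr fun m => ?_
      rw [div_eq_mul_inv]
      ring
  · intro U U0 hU hLim
    rw [tendsto_mt] at hLim ⊢
    intro i j
    simp only [Matrix.mul_diagonal, Matrix.diagonal_mul]
    rcases lt_trichotomy i j with h | h | h
    · rw [Matrix.one_apply_ne h.ne]
      have h1 := (hg i j h).mul (hLim i j)
      rw [zero_mul] at h1
      refine h1.congr fun m => ?_
      rw [div_eq_mul_inv]
      ring
    · subst h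
      rw [Matrix.one_apply_eq]
      refine (tendsto_const_nhds (x := (1 : ℝ))).congr' ?_
      filter_upwards [h0] with m hm
      rw [(hU m).1 i, mul_one, inv_mul_cancel₀ (hm i)]
    · rw [Matrix.one_apply_ne h.ne']
      refine (tendsto_const_nhds (x := (0 : ℝ))).congr fun m => ?_
      rw [(hU m).2 i j h]
      ring

end Pool.Agent.Helper15.PR
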